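import Pool.Agent.helper34.NTA.Spec

set_option autoImplicit false

namespace Pool.Agent.NTA

open Equiv

theorem CLK_lab : ∀ c : ZMod 10, KL c → ¬ KL (c - 1) ∧ lam (c - 1) = lam c ∧ ¬ KL (c + 1) ∧
    lam (c + 1) = lam c + 1 := by decide

theorem CLK_inj : ∀ c c' : ZMod 10, KL c → KL c' → lam c = lam c' → c = c' := by decide

theorem CLK_dec (w : List (ZMod 10)) : (∀ x ∈ w, ¬ KL x) ∨ ∃ u c v, (∀ x ∈ u, ¬ KL x) ∧ KL c ∧
    w = u ++ c :: v := by
  induction w with
  | nil => left; simp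
  | cons a w ih =>
    by_cases ha : KL a
    · right
      exact ⟨[], a, w, by simp, ha, rfl⟩
    · rcases ih with h | ⟨u, c, v, hu, hc, rfl⟩
      · left
        intro x hx
        rcases List.mem_cons.1 hx with rfl | hx
        · exact ha
        · exact h x hx
      · right
        refine ⟨a :: u, c, v, ?_, hc, rfl⟩
        intro x hx
        rcases List.mem_cons.1 hx with rfl | hx
        · exact ha
        · exact hu x hx

theorem CLK_kn0 (u : List (ZMod 10)) (hu : ∀ x ∈ u, ¬ KL x) : kn u = 0 := by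
  unfold kn
  rw [List.countP_eq_zero]
  intro x hx
  simpa using hu x hx

theorem CLK_knapp (u v : List (ZMod 10)) : kn (u ++ v) = kn u + kn v := by
  unfold kn
  rw [List.countP_append]

theorem CLK_kncons (c : ZMod 10) (hc : KL c) (v : List (ZMod 10)) : kn (c :: v) = kn v + 1 := by
  unfold kn
  rw [List.countP_cons_of_pos]
  simpa using hc

theorem CLK_len (w : List (ZMod 10)) : w.length = kn w + rn w := by
  induction w with
  | nil => simp [kn, rn]
  | cons a w ih =>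
    unfold kn rn at *
    rw [List.countP_cons, List.countP_cons, List.length_cons, ih]
    by_cases ha : KL a <;> simp [ha] <;> omega

theorem CLK_lst0 {Q : Type} [Group Q] (r : Fin 5 → Q) (u : List (ZMod 10)) :
    (∀ x ∈ u, ¬ KL x) → ∀ q : Q, lst r q u = [] := by
  induction u with
  | nil => intro _ q; rfl
  | cons a u ih =>
    intro hu q
    have ha : ¬ KL a := hu a (by simp)
    unfold lst
    rw [if_neg ha]
    exact ih (fun x hx => hu x (by simp [hx])) _

theorem CLK_lstK {Q : Type} [Group Q] (r : Fin 5 → Q) (c : ZMod 10) (hc : KL c) (q : Q) (v : List (ZMod 10)) :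
    lst r q (c :: v) = (q, lam c) :: lst r q v := by
  rw [lst, if_pos hc]

theorem CLK_qprK {Q : Type} [Group Q] (r : Fin 5 → Q) (c : ZMod 10) (hc : KL c) (v : List (ZMod 10)) :
    qpr r (c :: v) = qpr r v := by
  rw [qpr, if_pos hc]


theorem CLK_chain_mid {u v : List (ZMod 10)} (h : (u ++ v).IsChain (· ≠ ·)) : u.IsChain (· ≠ ·) ∧ v.IsChain (· ≠ ·) := by
  rw [List.isChain_append] at h
  exact ⟨h.1, h.2.1⟩

theorem CLK_par {P : Type} (l : List P) (p : P) :
    (p :: l).countP (fun q => @decide (q = p) (Classical.dec _)) =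
      l.countP (fun q => @decide (q = p) (Classical.dec _)) + 1 := by
  rw [List.countP_cons_of_pos]
  simp

theorem CLK_ne {P : Type} (l : List P) (p q : P) (h : q ≠ p) :
    (q :: l).countP (fun q => @decide (q = p) (Classical.dec _)) =
      l.countP (fun q => @decide (q = p) (Classical.dec _)) := by
  rw [List.countP_cons_of_neg]
  simp [h]

theorem CLK (hRED : RED_stmt) (hEVL : EVL_stmt) : CLK_stmt := by
  intro Q L _ _ r ι k π hr hsh hL c w hc hprod hch hne hlen
  have hE := hEVL Q L r ι k π hL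
  have hR := hRED Q r hr hsh
  have h0 : ∀ u : List (ZMod 10), (∀ x ∈ u, ¬ KL x) → ∀ v : List (ZMod 10), ∀ q : Q,
      lst r q (u ++ v) = lst r (q * qpr r u) v := by
    intro u hu v q
    rw [(hE u).2.1 q v, CLK_lst0 r u hu q, List.nil_append]
  have hlw := CLK_len (c :: w)
  have hlw' : (c :: w).length ≤ 228 := by omega
  rw [List.length_cons] at hlw'
  obtain ⟨hq, hl⟩ := (hE (c :: w)).2.2.2.2 hprod
  rw [CLK_qprK r c hc] at hq
  rw [CLK_lstK r c hc] at hl
  have hkw : kn (c :: w) = kn w + 1 := CLK_kncons c hc w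
  have hkn : kn w ≤ 3 := by omega
  -- first
  rcases CLK_dec w with hw | ⟨u₁, c₂, w₂, hu₁, hc₂, rfl⟩
  · -- one K-letter
    exfalso
    rw [CLK_lst0 r w hw] at hl
    obtain ⟨m, hm⟩ := hL.par _ hl (1, lam c)
    rw [CLK_par] at hm
    simp at hm
    omega
  have hch₁ : u₁.IsChain (· ≠ ·) := by
    have h1 := hch.tail
    simp only [List.tail_cons] at h1
    exact (CLK_chain_mid h1).1
  have hch₂ : (c₂ :: w₂).IsChain (· ≠ ·) := by
    have h1 := hch.tail
    simp only [List.tail_cons] at h1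
    exact (CLK_chain_mid h1).2
  rw [List.length_append, List.length_cons] at hlw'
  have hR₁ := hR u₁ hch₁ (by omega) hu₁
  rw [(hE u₁).2.2.1, CLK_qprK r c₂ hc₂] at hq
  rw [h0 u₁ hu₁, CLK_lstK r c₂ hc₂, one_mul] at hl
  rw [CLK_knapp, CLK_kn0 u₁ hu₁, CLK_kncons c₂ hc₂, zero_add] at hkn
  -- p₁ ≠ p₂
  have hp12 : ((qpr r u₁, lam c₂) : Q × Fin 5) ≠ (1, lam c) := by
    intro h
    rw [Prod.mk.injEq] at h
    have h1 := hR₁.1 h.1
    have h2 := CLK_inj c₂ c hc₂ hc h.2
    subst h1 h2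
    simp at hch
  rcases CLK_dec w₂ with hw | ⟨u₂, c₃, w₃, hu₂, hc₃, rfl⟩
  · -- two K-letters
    exfalso
    rw [CLK_lst0 r w₂ hw] at hl
    obtain ⟨m, hm⟩ := hL.par _ hl (1, lam c)
    rw [CLK_par, CLK_ne _ _ _ hp12] at hm
    simp at hm
    omega
  have hch₂' : u₂.IsChain (· ≠ ·) := by
    have h1 := hch₂.tail
    simp only [List.tail_cons] at h1
    exact (CLK_chain_mid h1).1
  have hch₃ : (c₃ :: w₃).IsChain (· ≠ ·) := by
    have h1 := hch₂.tail
    simp only [List.tail_cons] at h1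
    exact (CLK_chain_mid h1).2
  rw [List.length_append, List.length_cons] at hlw'
  have hR₂ := hR u₂ hch₂' (by omega) hu₂
  rw [(hE u₂).2.2.1, CLK_qprK r c₃ hc₃] at hq
  rw [h0 u₂ hu₂, CLK_lstK r c₃ hc₃] at hl
  rw [CLK_knapp, CLK_kn0 u₂ hu₂, CLK_kncons c₃ hc₃, zero_add] at hkn
  have hp23 : ((qpr r u₁ * qpr r u₂, lam c₃) : Q × Fin 5) ≠ (qpr r u₁, lam c₂) := by
    intro h
    rw [Prod.mk.injEq] at h
    have h1 := hR₂.1 (by simpa using h.1)
    have h2 := CLK_inj c₃ c₂ hc₃ hc₂ h.2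
    subst h1 h2
    simp at hch₂
  rcases CLK_dec w₃ with hw | ⟨u₃, c₄, w₄, hu₃, hc₄, rfl⟩
  · -- three K-letters
    exfalso
    rw [CLK_lst0 r w₃ hw] at hl
    obtain ⟨m, hm⟩ := hL.par _ hl (1, lam c)
    rw [CLK_par, CLK_ne _ _ _ hp12] at hm
    by_cases h31 : ((qpr r u₁ * qpr r u₂, lam c₃) : Q × Fin 5) = (1, lam c)
    · rw [Prod.mk.injEq] at h31
      have hch₃' : w₃.IsChain (· ≠ ·) := by
        have h1 := hch₃.tail
        simpa only [List.tail_cons] using h1
      have hR₃ := hR w₃ hch₃' (by omega) hw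
      have h1 := hR₃.1 (by rw [← mul_assoc, h31.1, one_mul] at hq; exact hq)
      have h2 := CLK_inj c₃ c hc₃ hc h31.2
      subst h1 h2
      apply hne
      simp [List.getLast?_cons, List.getLast?_append]
    · rw [CLK_ne _ _ _ h31] at hm
      simp at hm
      omega
  have hch₃' : u₃.IsChain (· ≠ ·) := by
    have h1 := hch₃.tail
    simp only [List.tail_cons] at h1
    exact (CLK_chain_mid h1).1
  have hch₄ : (c₄ :: w₄).IsChain (· ≠ ·) := by
    have h1 := hch₃.tail
    simp only [List.tail_cons] at h1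
    exact (CLK_chain_mid h1).2
  rw [List.length_append, List.length_cons] at hlw'
  have hR₃ := hR u₃ hch₃' (by omega) hu₃
  rw [(hE u₃).2.2.1, CLK_qprK r c₄ hc₄] at hq
  rw [h0 u₃ hu₃, CLK_lstK r c₄ hc₄] at hl
  rw [CLK_knapp, CLK_kn0 u₃ hu₃, CLK_kncons c₄ hc₄, zero_add] at hkn
  have hp34 : ((qpr r u₁ * qpr r u₂ * qpr r u₃, lam c₄) : Q × Fin 5) ≠ (qpr r u₁ * qpr r u₂, lam c₃) := by
    intro h
    rw [Prod.mk.injEq] at h
    have h1 := hR₃.1 (by simpa using h.1)
    have h2 := CLK_inj c₄ c₃ hc₄ hc₃ h.2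
    subst h1 h2
    simp at hch₃
  -- w₄ has no K-letter
  rcases CLK_dec w₄ with hw₄ | ⟨u₄, c₅, w₅, hu₄, hc₅, rfl⟩
  swap
  · exfalso
    rw [CLK_knapp, CLK_kncons c₅ hc₅] at hkn
    omega
  have hch₄' : w₄.IsChain (· ≠ ·) := by
    have h1 := hch₄.tail
    simpa only [List.tail_cons] using h1
  have hR₄ := hR w₄ hch₄' (by omega) hw₄
  rw [CLK_lst0 r w₄ hw₄] at hl
  have hp41 : ((qpr r u₁ * qpr r u₂ * qpr r u₃, lam c₄) : Q × Fin 5) ≠ (1, lam c) := by
    intro h
    rw [Prod.mk.injEq] at h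
    have h1 := hR₄.1 (by
      have h3 := h.1
      rw [← mul_assoc, ← mul_assoc, h3, one_mul] at hq
      exact hq)
    have h2 := CLK_inj c₄ c hc₄ hc h.2
    subst h1 h2
    apply hne
    simp [List.getLast?_cons, List.getLast?_append]
  have hp31 : ((qpr r u₁ * qpr r u₂, lam c₃) : Q × Fin 5) = (1, lam c) := by
    by_contra h31
    obtain ⟨m, hm⟩ := hL.par _ hl (1, lam c)
    rw [CLK_par, CLK_ne _ _ _ hp12, CLK_ne _ _ _ h31, CLK_ne _ _ _ hp41] at hm
    simp at hm
    omega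
  have hp42 : ((qpr r u₁ * qpr r u₂ * qpr r u₃, lam c₄) : Q × Fin 5) = (qpr r u₁, lam c₂) := by
    by_contra h42
    obtain ⟨m, hm⟩ := hL.par _ hl (qpr r u₁, lam c₂)
    rw [CLK_ne _ _ _ hp12.symm, CLK_par, CLK_ne _ _ _ hp23, CLK_ne _ _ _ h42] at hm
    simp at hm
    omega
  have hN : Near r ((1, lam c) : Q × Fin 5) (qpr r u₁, lam c₂) := by
    by_contra hN
    apply hL.nc _ _ hp12.symm hN
    rw [hp31, hp42] at hl
    simp only [List.map_cons, List.map_nil, List.prod_cons, List.prod_nil, mul_one] at hl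
    rw [pow_two, mul_assoc]
    exact hl
  obtain ⟨hN1, hN2⟩ := hN
  simp only [one_mul] at hN1 hN2
  rw [Prod.mk.injEq] at hp31 hp42
  have e2 : c₂ = c := CLK_inj c₂ c hc₂ hc hN1.symm
  have e3 : c₃ = c := CLK_inj c₃ c hc₃ hc hp31.2
  have e4 : c₄ = c := CLK_inj c₄ c hc₄ hc (by rw [hp42.2, e2])
  have key : ∀ c' : ZMod 10, ¬ KL c' → qpr r u₁ = r (lam c') → c :: (u₁ ++ c₂ :: (u₂ ++ c₃ :: (u₃ ++ c₄ :: w₄))) =
      alt c c' := by
    intro c' hc' h1
    have hi := hr (lam c')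
    have h2 : qpr r u₂ = r (lam c') := by
      have := hp31.1
      rw [h1] at this
      calc qpr r u₂ = (r (lam c') * r (lam c')) * qpr r u₂ := by rw [hi, one_mul]
        _ = r (lam c') := by rw [mul_assoc, this, mul_one]
    have h3 : qpr r u₃ = r (lam c') := by
      have := hp42.1
      rw [hp31.1, one_mul, h1] at this
      exact this
    have h4 : qpr r w₄ = r (lam c') := by
      have := hq
      rw [h1, h2, h3] at this
      calc qpr r w₄ = r (lam c') * (r (lam c') * (r (lam c') * (r (lam c') * qpr r w₄))) := by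
            simp only [← mul_assoc, hi, one_mul]
        _ = r (lam c') := by rw [this, mul_one]
    rw [hR₁.2 c' hc' h1, hR₂.2 c' hc' h2, hR₃.2 c' hc' h3, hR₄.2 c' hc' h4, e2, e3, e4]
    rfl
  obtain ⟨l1, l2, l3, l4⟩ := CLK_lab c hc
  rcases hN2 with h | h
  · right
    exact key (c - 1) l1 (by rw [l2]; exact h)
  · left
    exact key (c + 1) l3 (by rw [l4]; exact h)

end Pool.Agent.NTA
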